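import Pool.Agent.Helper26.DA.Lem
import Pool.Agent.Helper16.DA.V0D
import Pool.Agent.Helper20.DA.EXP
import Pool.Agent.Helper27.DA.MDL
import Pool.Agent.Helper32.DA.HEX
import Pool.Agent.Helper33.DA.MIN
import Pool.Agent.Helper34.DA.TOT
import Pool.Agent.Helper35.DA.NULL
import Pool.Agent.Helper35.DA.RNG
import Pool.Agent.Helper42.DA.FRE
import Pool.Agent.Helper56.DA.BAS
import Pool.Agent.Helper82.DA.LAP
import Pool.Agent.Helper89.DA.NAK
import Pool.Agent.Helper93.DA.HB
import Pool.Agent.Helper94.DA.MG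

/-! # Project DA: the final theorems -/

set_option autoImplicit false

namespace Pool.Agent.Helper26.DA

open IsLocalRing

universe u v w

theorem T1 {A : Type u} [CommRing A] [IsLocalRing A] [IsNoetherianRing A] {B : Type v} [CommRing B]
    [IsLocalRing B] [Algebra A B] {R : Type w} [CommRing R] [IsDomain R] [UniqueFactorizationMonoid R]
    [IsNoetherianRing R] [IsLocalRing R] (x y : R) (hxy : maximalIdeal R = Ideal.span {x, y})
    (q : R →+* B) (hq : Function.Surjective q) (F : FC A) (act : DAct A B F) (p : ℕ)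
    (hp : ∀ i, p < i → F.r i = 0) (hH0 : LinearMap.range (F.d 0) ≠ ⊤) :
    Module.finrank (ResidueField A) (CotangentSpace A) ≤ p + 2 :=
  t1 Helper94.DA.gMG Helper56.DA.gBAS Helper27.DA.gMDL Helper35.DA.gNUL Helper32.DA.gHEX
    Helper35.DA.gRNG Helper34.DA.gTOT Helper16.DA.gV0D Helper89.DA.gNAK Helper42.DA.gFRE
    Helper33.DA.gMIN Helper20.DA.gEXP Helper93.DA.gHB Helper82.DA.gLAP x y hxy q hq F act p hp hH0

theorem FIT {A : Type u} [CommRing A] [IsLocalRing A] {B : Type v} [CommRing B] [Algebra A B] {F : FC A}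
    (act : DAct A B F) {e : ℕ} (a : Fin e → A) (ha : MinGen a) (p : ℕ) (hp : ∀ i, p < i → F.r i = 0)
    (c : Fin (p + 1) → Fin e → B) (hc : ∀ i, ∑ l, c i l * algebraMap A B (a l) = 0)
    (l : Fin (p + 1) → Fin e) : Kills act (Matrix.of fun i j => c i (l j)).det :=
  fit Helper56.DA.gBAS Helper27.DA.gMDL Helper35.DA.gNUL Helper32.DA.gHEX
    Helper35.DA.gRNG Helper34.DA.gTOT act a ha p hp c hc l

theorem LEMA {A : Type u} [CommRing A] [IsLocalRing A] {B : Type v} [CommRing B] [Algebra A B] {F : FC A}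
    [IsNoetherianRing A] [IsLocalRing B] (act : DAct A B F) (p : ℕ)
    (hp : ∀ i, p < i → F.r i = 0) (hH0 : LinearMap.range (F.d 0) ≠ ⊤) (s : ℕ) (b : Fin s → A)
    (hb : ∀ i, b i ∈ maximalIdeal A)
    (hli : ∀ w : Fin s → A, ∑ i, b i * w i ∈ maximalIdeal A ^ 2 → ∀ i, w i ∈ maximalIdeal A)
    (hx : ∀ i, algebraMap A B (b i) ∈ maximalIdeal B * Ideal.span {x | Kills act x}) : s ≤ p :=
  lema Helper94.DA.gMG Helper56.DA.gBAS Helper27.DA.gMDL Helper35.DA.gNUL Helper32.DA.gHEX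
    Helper16.DA.gV0D Helper89.DA.gNAK act p hp hH0 s b hb hli hx

end Pool.Agent.Helper26.DA
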