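import Pool.Agent.Helper26.DA.Goals

/-! # Project DA: assembly -/

set_option autoImplicit false

namespace Pool.Agent.Helper26.DA

open IsLocalRing

universe u v w

section model

variable {A : Type u} [CommRing A] [IsLocalRing A] {B : Type v} [CommRing B] [Algebra A B] {F : FC A}
  {act : DAct A B F} {e : ℕ} {a : Fin e → A}

theorem V_subsingleton (M : Mdl act a) (i : ℕ) (hi : F.r i = 0) : Subsingleton (M.V i) := by
  have h1 : Subsingleton (Fin (F.r i) → A) := by
    rw [hi]; infer_instance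
  have h2 : Subsingleton (Zc F i) := ⟨fun x y => Subtype.ext (Subsingleton.elim _ _)⟩
  exact (M.surj i).subsingleton

theorem mem_J (M : Mdl act a) (b : B) : b ∈ M.J ↔ ∀ i (v : M.V i), b • v = 0 := by
  unfold Mdl.J
  simp only [Submodule.mem_iInf, Module.mem_annihilator]

/-- extension of a finite family -/
def ext0 {α : Type*} {n : ℕ} (f : Fin n → α) (d : α) (i : ℕ) : α := if h : i < n then f ⟨i, h⟩ else d

theorem ext0_val {α : Type*} {n : ℕ} (f : Fin n → α) (d : α) (i : Fin n) : ext0 f d i = f i := by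
  unfold ext0; rw [dif_pos i.2]

theorem fit_model (hB : G_BAS.{u}) (hN : G_NUL.{u}) (hH : G_HEX.{u, v}) (hR : G_RNG.{u, v})
    (hT : G_TOT.{u, v}) (ha : MinGen a) (M : Mdl act a) (p : ℕ) (hp : ∀ i, p < i → F.r i = 0)
    (c : Fin (p + 1) → Fin e → B) (hc : ∀ i, ∑ l, c i l * algebraMap A B (a l) = 0)
    (l : Fin (p + 1) → Fin e) : (Matrix.of fun i j => c i (l j)).det ∈ M.J := by
  rw [mem_J]
  intro i v
  have key : ∀ j : ℕ, ∃ h : ∀ i, M.V i →+ M.V (i + 1),
      (∀ (l : Fin e) (v : M.V 0), M.D l 0 (h 0 v) = ext0 c 0 j l • v) ∧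
      ∀ (i : ℕ) (l : Fin e) (v : M.V (i + 1)), M.D l (i + 1) (h (i + 1) v) + h i (M.D l i v) =
        ext0 c 0 j l • v := by
    intro j
    have hz : ∑ l, ext0 c 0 j l * algebraMap A B (a l) = 0 := by
      by_cases hj : j < p + 1
      · have := hc ⟨j, hj⟩
        unfold ext0
        rw [dif_pos hj]
        exact this
      · unfold ext0
        rw [dif_neg hj]
        simp
    obtain ⟨h, h0, h1⟩ := hH hB hN A B F act e a ha M ⊥ (ext0 c 0 j) (by rw [hz]; exact Ideal.zero_mem _)
    refine ⟨h, fun l v => ?_, fun i l v => ?_⟩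
    · have := h0 l v
      rw [Submodule.bot_smul, Submodule.mem_bot, sub_eq_zero] at this
      exact this
    · have := h1 i l v
      rw [Submodule.bot_smul, Submodule.mem_bot, sub_eq_zero] at this
      exact this
  choose h h0 h1 using key
  have := hT hR B M.V e M.D (ext0 c 0) h p (fun i hi => V_subsingleton M i (hp i hi)) h0
    (fun j l i v => h1 j i l v) (ext0 l (l 0)) i v
  have hm : (Matrix.of fun i j : Fin (p + 1) => ext0 c 0 i (ext0 l (l 0) j))
      = Matrix.of fun i j => c i (l j) := by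
    ext i j
    simp only [Matrix.of_apply, ext0_val]
  rw [hm] at this
  exact this

theorem v0_model (hB : G_BAS.{u}) (hN : G_NUL.{u}) (hH : G_HEX.{u, v}) (hV : G_V0D.{u, v})
    (ha : MinGen a) (M : Mdl act a) (p : ℕ) (hp : ∀ i, p < i → F.r i = 0) (q : Ideal B)
    (c : Fin (p + 1) → Fin e → B) (hc : ∀ i, ∑ l, c i l * algebraMap A B (a l) ∈ q * M.J)
    (l : Fin (p + 1) → Fin e) (v : M.V 0) :
    (Matrix.of fun i j => c i (l j)).det • v ∈ q • (⊤ : Submodule B (M.V 0)) := by
  have key : ∀ j : ℕ, ∃ h : ∀ i, M.V i →+ M.V (i + 1),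
      (∀ (l : Fin e) (v : M.V 0), M.D l 0 (h 0 v) - ext0 c 0 j l • v ∈ q • (⊤ : Submodule B (M.V 0))) ∧
      ∀ (i : ℕ) (l : Fin e) (v : M.V (i + 1)), M.D l (i + 1) (h (i + 1) v) + h i (M.D l i v) -
        ext0 c 0 j l • v ∈ q • (⊤ : Submodule B (M.V (i + 1))) := by
    intro j
    have hz : ∑ l, ext0 c 0 j l * algebraMap A B (a l) ∈ q * M.J := by
      by_cases hj : j < p + 1
      · have := hc ⟨j, hj⟩
        unfold ext0
        rw [dif_pos hj]
        exact this
      · unfold ext0
        rw [dif_neg hj]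
        simp
    exact hH hB hN A B F act e a ha M q (ext0 c 0 j) hz
  choose h h0 h1 using key
  have := hV B q M.V e M.D (ext0 c 0) h h0
    (fun j l i v => h1 j i l v) p (V_subsingleton M _ (hp _ (Nat.lt_succ_self p))) (ext0 l (l 0)) v
  have hm : (Matrix.of fun i j : Fin (p + 1) => ext0 c 0 i (ext0 l (l 0) j))
      = Matrix.of fun i j => c i (l j) := by
    ext i j
    simp only [Matrix.of_apply, ext0_val]
  rw [hm] at this
  exact this

end model

/-- T1 -/
theorem t1 (hMG : G_MG.{u}) (hB : G_BAS.{u}) (hMD : G_MDL.{u, v}) (hN : G_NUL.{u}) (hH : G_HEX.{u, v})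
    (hR : G_RNG.{u, v}) (hT : G_TOT.{u, v}) (hV : G_V0D.{u, v}) (hNK : G_NAK.{u, v}) (hF : G_FRE.{w})
    (hMI : G_MIN.{w}) (hE : G_EXP.{w}) (hHB : G_HB.{w}) (hL : G_LAP.{w})
    {A : Type u} [CommRing A] [IsLocalRing A] [IsNoetherianRing A] {B : Type v} [CommRing B]
    [IsLocalRing B] [Algebra A B] {R : Type w} [CommRing R] [IsDomain R] [UniqueFactorizationMonoid R]
    [IsNoetherianRing R] [IsLocalRing R] (x y : R) (hxy : maximalIdeal R = Ideal.span {x, y})
    (q : R →+* B) (hq : Function.Surjective q) (F : FC A) (act : DAct A B F) (p : ℕ)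
    (hp : ∀ i, p < i → F.r i = 0) (hH0 : LinearMap.range (F.d 0) ≠ ⊤) :
    Module.finrank (ResidueField A) (CotangentSpace A) ≤ p + 2 := by
  by_contra hcon
  rw [not_le] at hcon
  obtain ⟨e, he, a, ha⟩ : ∃ e, e = Module.finrank (ResidueField A) (CotangentSpace A) ∧
      ∃ a : Fin e → A, MinGen a := ⟨_, rfl, hMG A⟩
  rw [← he] at hcon
  obtain ⟨M⟩ := hMD hB A B F act e a ha
  obtain ⟨hloc, v, hv⟩ := hNK hB A B F act e a ha M hH0
  have hx : ∀ k, algebraMap A B (a k) ∈ maximalIdeal B := fun k => hloc _ (by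
    rw [← ha.1]; exact Ideal.subset_span ⟨k, rfl⟩)
  choose f hf using fun k => hq (algebraMap A B (a k))
  have : IsLocalHom q := IsLocalHom.of_surjective q hq
  have hfm : ∀ k, f k ∈ maximalIdeal R := by
    intro k
    rw [mem_maximalIdeal, mem_nonunits_iff]
    intro hu
    have h1 := hu.map q
    rw [hf] at h1
    exact (mem_nonunits_iff.1 ((mem_maximalIdeal _).1 (hx k))) h1
  have hmap : Ideal.map q (maximalIdeal R) ≤ maximalIdeal B := by
    rw [Ideal.map_le_iff_le_comap]
    intro r hr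
    rw [Ideal.mem_comap, mem_maximalIdeal, mem_nonunits_iff]
    intro hu
    exact (mem_nonunits_iff.1 ((mem_maximalIdeal _).1 hr)) (isUnit_of_map_unit q r hu)
  have hMIJ : Ideal.map q (MI (p + 1) f) ≤ M.J := by
    unfold MI
    rw [Ideal.map_span, Ideal.span_le]
    rintro _ ⟨m, ⟨c, l, hc, rfl⟩, rfl⟩
    have h1 := fit_model hB hN hH hR hT ha M p hp (fun i k => q (c i k)) (fun i => by
      have := congrArg q (hc i)
      rw [map_sum, map_zero] at this
      rw [← this]
      exact Finset.sum_congr rfl fun k _ => by rw [map_mul, hf]) l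
    have h2 : q (Matrix.of fun i j => c i (l j)).det = (Matrix.of fun i j => q (c i (l j))).det := by
      rw [RingHom.map_det]
      rfl
    show q (Matrix.of fun i j => c i (l j)).det ∈ M.J
    rw [h2]
    exact h1
  have hxJ : ∀ k, algebraMap A B (a k) ∈ maximalIdeal B * M.J := by
    intro k
    have h1 := hHB hF hMI hE R x y hxy e f hfm k
    have h2 : MI (e - 2) f ≤ MI (p + 1) f := hL R e f (p + 1) (e - 2) (by omega)
    have h3 : f k ∈ maximalIdeal R * MI (p + 1) f := Ideal.mul_mono_right h2 h1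
    have h4 := Ideal.mem_map_of_mem q h3
    rw [Ideal.map_mul, hf] at h4
    exact Ideal.mul_mono hmap hMIJ h4
  have hpe : p + 1 ≤ e := by omega
  have hfin := v0_model hB hN hH hV ha M p hp (maximalIdeal B)
    (fun i k => if (k : ℕ) = i then 1 else 0) (fun i => by
      rw [Finset.sum_eq_single (⟨i, by omega⟩ : Fin e)]
      · simp only [if_true, one_mul]
        exact hxJ _
      · intro b _ hb
        rw [if_neg, zero_mul]
        intro h
        exact hb (Fin.ext h)
      · intro h; exact absurd (Finset.mem_univ _) h) (fun j => ⟨j, by omega⟩) v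
  have hone : (Matrix.of fun i j : Fin (p + 1) =>
      (fun (i : Fin (p + 1)) (k : Fin e) => if (k : ℕ) = i then (1 : B) else 0) i ⟨j, by omega⟩) = 1 := by
    ext i j
    simp only [Matrix.of_apply, Matrix.one_apply]
    by_cases h : i = j
    · subst h; simp
    · rw [if_neg (fun hh => h (Fin.ext hh.symm)), if_neg h]
  rw [hone, Matrix.det_one, one_smul] at hfin
  exact hv hfin

end Pool.Agent.Helper26.DA
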