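import Mathlib

/-!
# Project DA (MP_05c055_al): finite free complexes with derived actions.  Definitions.
-/

set_option autoImplicit false

namespace Pool.Agent.Helper26.DA

open IsLocalRing

universe u v w

/-- A complex of finitely generated free `A`-modules
`... → A^(r 2) → A^(r 1) → A^(r 0) → 0`, homologically graded. -/
structure FC (A : Type u) [CommRing A] where
  /-- the ranks -/
  r : ℕ → ℕ
  /-- the differentials -/
  d : ∀ i : ℕ, (Fin (r (i + 1)) → A) →ₗ[A] (Fin (r i) → A)
  dd : ∀ (i : ℕ) (z : Fin (r (i + 1 + 1)) → A), d i (d (i + 1) z) = 0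

section
variable {A : Type u} [CommRing A]

/-- Families of endomorphisms of the modules of the complex (a ring, degreewise). -/
abbrev Fam (F : FC A) : Type u := ∀ i : ℕ, Module.End A (Fin (F.r i) → A)

/-- `f` is a chain map. -/
def IsCh (F : FC A) (f : Fam F) : Prop := ∀ (i : ℕ) (z : Fin (F.r (i + 1)) → A),
  F.d i (f (i + 1) z) = f i (F.d i z)

/-- `f` and `g` are chain homotopic: `f - g = d s + s d`. -/
def Hty (F : FC A) (f g : Fam F) : Prop :=
  ∃ s : ∀ i : ℕ, (Fin (F.r i) → A) →ₗ[A] (Fin (F.r (i + 1)) → A),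
    (∀ z, f 0 z - g 0 z = F.d 0 (s 0 z)) ∧
    ∀ (i : ℕ) (z), f (i + 1) z - g (i + 1) z = F.d (i + 1) (s (i + 1) z) + s i (F.d i z)

/-- A derived `B`-action on `F`: a ring homomorphism from `B` to the ring of homotopy classes of
chain endomorphisms of `F` (this ring is `End_{D(A)}(F)`, as `F` is a bounded complex of free
modules) such that the composite with `A → B` is the canonical map.  The homomorphism is given by
representatives `ρ b`. -/
structure DAct (A : Type u) (B : Type v) [CommRing A] [CommRing B] [Algebra A B] (F : FC A) where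
  /-- representatives -/
  ρ : B → Fam F
  ch : ∀ b, IsCh F (ρ b)
  one : Hty F (ρ 1) 1
  add : ∀ b c, Hty F (ρ (b + c)) (ρ b + ρ c)
  mul : ∀ b c, Hty F (ρ (b * c)) (ρ b * ρ c)
  alg : ∀ a : A, Hty F (ρ (algebraMap A B a)) (a • (1 : Fam F))

variable [IsLocalRing A]

/-- the vectors with coordinates in the maximal ideal -/
def mS (A : Type u) [CommRing A] [IsLocalRing A] (n : ℕ) : Submodule A (Fin n → A) where
  carrier := {z | ∀ j, z j ∈ maximalIdeal A}
  add_mem' := fun hx hy j => Ideal.add_mem _ (hx j) (hy j)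
  zero_mem' := fun _ => Ideal.zero_mem _
  smul_mem' := fun c _ hx j => Ideal.mul_mem_left _ c (hx j)

/-- the elements of degree `i` which are cycles modulo the maximal ideal -/
def Zc (F : FC A) : ∀ i : ℕ, Submodule A (Fin (F.r i) → A)
  | 0 => ⊤
  | (i + 1) => (mS A (F.r i)).comap (F.d i)

/-- the elements of degree `i` which are boundaries modulo the maximal ideal -/
def Bd (F : FC A) (i : ℕ) : Submodule A (Fin (F.r i) → A) :=
  LinearMap.range (F.d i) ⊔ mS A (F.r i)

/-- `a` is a minimal system of generators of the maximal ideal -/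
def MinGen {e : ℕ} (a : Fin e → A) : Prop :=
  Ideal.span (Set.range a) = maximalIdeal A ∧
    ∀ w : Fin e → A, ∑ l, a l * w l = 0 → ∀ l, w l ∈ maximalIdeal A

/-- `V i = H_i(F ⊗ k)`, its `B`-module structure, and the operators `D l : V (i+1) → V i` defined by
`D_l [z] = [y_l]` if `d z = ∑ a_l y_l`. -/
structure Mdl {B : Type v} [CommRing B] [Algebra A B] {F : FC A} (act : DAct A B F) {e : ℕ}
    (a : Fin e → A) where
  /-- the homology of `F ⊗ k` -/
  V : ℕ → Type u
  /-- group structure -/
  grp : ∀ i, AddCommGroup (V i)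
  /-- module structure -/
  mod : ∀ i, Module B (V i)
  /-- the class of an element -/
  π : ∀ i, Zc F i →+ V i
  surj : ∀ i, Function.Surjective (π i)
  ker : ∀ i (z : Zc F i), π i z = 0 ↔ (z : Fin (F.r i) → A) ∈ Bd F i
  smul : ∀ i (b : B) (z w : Zc F i), (w : Fin (F.r i) → A) = act.ρ b i z → b • π i z = π i w
  /-- the operators -/
  D : Fin e → ∀ i, V (i + 1) →ₗ[B] V i
  Dsp : ∀ i (z : Zc F (i + 1)) (y : Fin e → Zc F i),
    F.d i z = ∑ l, a l • (y l : Fin (F.r i) → A) → ∀ l, D l i (π (i + 1) z) = π i (y l)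

attribute [instance] Mdl.grp Mdl.mod

/-- the annihilator of `⊕ V i` -/
def Mdl.J {B : Type v} [CommRing B] [Algebra A B] {F : FC A} {act : DAct A B F} {e : ℕ}
    {a : Fin e → A} (M : Mdl act a) : Ideal B := ⨅ i, Module.annihilator B (M.V i)

end

/-- The ideal generated by the `t × t` minors of all families of `t` syzygies of `f`. -/
def MI {R : Type w} [CommRing R] {e : ℕ} (t : ℕ) (f : Fin e → R) : Ideal R :=
  Ideal.span {m | ∃ (c : Fin t → Fin e → R) (l : Fin t → Fin e),
    (∀ i, ∑ k, c i k * f k = 0) ∧ m = (Matrix.of fun i j => c i (l j)).det}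

end Pool.Agent.Helper26.DA
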