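import Pool.Agent.Helper26.DA.Defs

/-!
# Project DA (MP_05c055_al): goals (packets), with complete proofs

THEOREM (T1).  `A` noetherian local, `F` a finite free complex of length `p` with `H_0(F) ≠ 0` and a derived
action of a local ring `B` which is a quotient of a regular local ring of dimension `≤ 2`.  Then
`edim A ≤ p + 2`; so for `edim B = 2` the inequality `p ≤ edim A - edim B` is an equality.
THEOREM (FIT), every `B`: the `(p+1)`-minors of the syzygies of the images `x_l ∈ B` of minimal generators `a_l`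
of `m_A` kill `H_i(F ⊗ k)`.   THEOREM (LEMA), every `B`: if the images of `s` elements of `m_A`, independent modulo
`m_A ^ 2`, lie in `m_B · Ann_B H(F ⊗ k)`, then `s ≤ p`.

Idea.  `V = H(F ⊗ k)`, `D_l : V_{i+1} → V_i`, `d z = ∑ a_l y_l ⟹ D_l [z] = [y_l]`.  A syzygy
`∑ c_l x_l = 0` gives a null homotopy `∑ a_l ρ(c_l) = d s + s d`, hence `h : V_i → V_{i+1}` with
`D_l h + h D_l = c_l`.  `p + 1` of these: `h_p ⋯ h_0 = 0`, take (graded) commutators with `D_{l_0}, …, D_{l_p}`.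
Notation below: `m = maximalIdeal A`, `F_i = A^(r i)`, `mS`, `Zc`, `Bd` see Defs.  All goals are universe
polymorphic.  Other goals may be assumed (tell me which).
-/

set_option autoImplicit false

namespace Pool.Agent.Helper26.DA

open IsLocalRing

universe u v w

/-- (MG).  Take a basis of the cotangent space `m/m²` (`Module.finBasis`), `a l` lifts (the map
`(maximalIdeal A).toCotangent` is surjective).  `span (range a) ⊔ m • m = m`, so `span = m` (Nakayama, `m` is f.g.;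
e.g. `Submodule.le_of_le_smul_of_le_jacobson_bot`).  If `∑ a_l w_l = 0`, apply `toCotangent`:
`∑ (residue w_l) • (basis l) = 0`, so `residue w_l = 0`. -/
def G_MG : Prop := ∀ (A : Type u) [CommRing A] [IsLocalRing A] [IsNoetherianRing A],
  ∃ a : Fin (Module.finrank (ResidueField A) (CotangentSpace A)) → A, MinGen a

/-- (BAS), seven basic facts.  (1) each coordinate is in the span of the `a l`
(`Ideal.mem_span_range_iff_exists_fun`).  (2) apply `MinGen` to each coordinate.  (3) `d (d w + μ) = d μ`, a linear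
map preserves `mS` (the coordinates of `T μ` are `∑ (T e_j)_i μ_j`; prove this first).  (4), (5): `IsCh`.
(6) for `z ∈ Zc (i+1)`: `f z - g z = d (s z) + s (d z)`, `d z ∈ mS`, so `s (d z) ∈ mS`.
(7) `i = 0`: `Zc 0 = ⊤`.  `i + 1`: `0 = d (d z) = ∑ a_l d y_l`, use (2). -/
def G_BAS : Prop := ∀ (A : Type u) [CommRing A] [IsLocalRing A] (F : FC A) (e : ℕ) (a : Fin e → A),
  MinGen a →
  (∀ (n : ℕ), ∀ z ∈ mS A n, ∃ y : Fin e → Fin n → A, z = ∑ l, a l • y l) ∧
  (∀ (n : ℕ) (y : Fin e → Fin n → A), ∑ l, a l • y l = 0 → ∀ l, y l ∈ mS A n) ∧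
  (∀ i, Bd F i ≤ Zc F i) ∧
  (∀ f : Fam F, IsCh F f → ∀ i, ∀ z ∈ Zc F i, f i z ∈ Zc F i) ∧
  (∀ f : Fam F, IsCh F f → ∀ i, ∀ z ∈ Bd F i, f i z ∈ Bd F i) ∧
  (∀ f g : Fam F, Hty F f g → ∀ i, ∀ z ∈ Zc F i, f i z - g i z ∈ Bd F i) ∧
  (∀ (i : ℕ) (z : Fin (F.r (i + 1)) → A) (y : Fin e → Fin (F.r i) → A),
    F.d i z = ∑ l, a l • y l → ∀ l, y l ∈ Zc F i)

/-- (MDL), the model.  `V i = Zc i / Bd i` (quotient of `Zc F i` by `(Bd F i).comap (Zc F i).subtype`), `π` the
quotient map, `b • [z] = [ρ b z]` (well defined by `G_BAS` (4), (5); module axioms by (6) applied to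
`act.one`, `act.add`, `act.mul`; additivity in `z` by linearity of `ρ b i`).  `D_l [z] = [y_l]` for any
`y` with `d z = ∑ a_l y_l` (exists by (1) because `d z ∈ mS`, `y_l ∈ Zc` by (7)).  Well defined: if
`∑ a_l y_l = ∑ a_l y'_l` then `y_l - y'_l ∈ mS ⊆ Bd` by (2); if `z = d w + μ`, `μ ∈ mS`, `μ = ∑ a_l μ_l`, then
`d z = d μ = ∑ a_l d μ_l` and `d μ_l ∈ Bd`.  Additive: add the `y`'s.  `B`-linear: `d (ρ b z) = ρ b (d z) =
∑ a_l ρ b y_l`. -/
def G_MDL : Prop := G_BAS.{u} → ∀ (A : Type u) [CommRing A] [IsLocalRing A] (B : Type v) [CommRing B]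
  [Algebra A B] (F : FC A) (act : DAct A B F) (e : ℕ) (a : Fin e → A), MinGen a → Nonempty (Mdl act a)

/-- (NUL).  A chain map which is zero on the homology of the complex `F ⊗ k` of vector spaces is homotopic to one
which is zero modulo `m`.  Write `≡` for congruence modulo `mS`.  There are linear `κ_i : F_i → F_{i+1}` with
`d κ d ≡ d` (over the field `k`: `κ̄` inverts `d̄ : k^(r (i+1)) → range d̄` on a complement; lift the matrix entries
to `A`).  So `d κ b ≡ b` for `b ∈ Bd i`.  Let `θ_0 = 1 - d κ`, `θ_{i+1} = 1 - d κ - κ d`: `d θ ≡ 0` (values in `Zc`),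
`θ d ≡ 0`.  Put `s = g κ + κ g θ`.  Then `d s + s d ≡ g`: `g = g (d κ + κ d) + g θ`, `g d κ = d g κ`,
`(g κ) d` is the first part of `s d`; `ψ = g θ` has values in `Bd` (hypothesis), so `d κ ψ ≡ ψ`, and
`κ ψ d = κ g (θ d) ≡ 0`.  Take `g' = g - (d s + s d)`.  (Degree `0`: no terms `κ d`, `s d`.) -/
def G_NUL : Prop := ∀ (A : Type u) [CommRing A] [IsLocalRing A] (F : FC A) (g : Fam F), IsCh F g →
  (∀ i, ∀ z ∈ Zc F i, g i z ∈ Bd F i) → ∃ g' : Fam F, IsCh F g' ∧ Hty F g g' ∧ ∀ i z, g' i z ∈ mS A (F.r i)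

/-- (HEX).  `∑ c_l x_l = ∑_m q_m j_m` (finite sum, `q_m ∈ q`, `j_m ∈ J`; induction `Submodule.mul_induction_on` or
`Submodule.mem_ideal_smul..`: for every element `t ∈ q * J` there is a finite family).  `ρ (j_m)` maps `Zc` to `Bd`
(`M.smul`, `M.ker`), so `ρ (j_m) ~ g_m ≡ 0` by `G_NUL`.  By `act.add`, `act.mul`, `act.alg` and composition of
homotopies with chain maps `T := ∑_l a_l ρ(c_l) - ∑_m ρ(q_m) g_m = d s + s d`.  Define `h [z] = [s z]`:
`d s z = T z - s d z ∈ mS` for `z ∈ Zc` (`a_l ∈ m`, `g_m ≡ 0`, `d z ∈ mS`), so `s z ∈ Zc`; if `z = d w + μ` then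
`s z = T w - d s w + s μ ∈ Bd`.  Relation: `z ∈ Zc (i+1)`, `d z = ∑ a_l y_l`, `g_m z = ∑_l a_l g_ml` (`G_BAS` (1)):
`d (s z) = ∑_l a_l (ρ(c_l) z - s y_l - ∑_m ρ(q_m) g_ml)`, where `g_ml ∈ Zc` because
`∑_l a_l d g_ml = d g_m z = g_m d z = ∑_l a_l g_m y_l`, so `d g_ml - g_m y_l ∈ mS` by (2), `g_m y_l ∈ mS`.  Hence
`D_l h [z] = c_l [z] - h D_l [z] - ∑_m q_m [g_ml]`.  Degree `0`: the same without `y`, (`g_ml ∈ Zc 0 = ⊤`).
A good intermediate statement: the set of `t ∈ B` such that there are a chain map `τ ~ ρ t` and families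
`G_l` with `τ z = ∑ a_l G_l`, `G_l ∈ Zc`, `[G_l] ∈ q • ⊤` for all `z ∈ Zc` contains `q * J` and is closed
under addition. -/
def G_HEX : Prop := G_BAS.{u} → G_NUL.{u} → ∀ (A : Type u) [CommRing A] [IsLocalRing A] (B : Type v)
  [CommRing B] [Algebra A B] (F : FC A) (act : DAct A B F) (e : ℕ) (a : Fin e → A), MinGen a →
  ∀ (M : Mdl act a) (q : Ideal B) (c : Fin e → B), ∑ l, c l * algebraMap A B (a l) ∈ q * M.J →
  ∃ h : ∀ i, M.V i →+ M.V (i + 1),
    (∀ (l : Fin e) (v : M.V 0), M.D l 0 (h 0 v) - c l • v ∈ q • (⊤ : Submodule B (M.V 0))) ∧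
    ∀ (i : ℕ) (l : Fin e) (v : M.V (i + 1)), M.D l (i + 1) (h (i + 1) v) + h i (M.D l i v) - c l • v ∈
      q • (⊤ : Submodule B (M.V (i + 1)))

/-- the product `h (m-1) * ⋯ * h 0` -/
def hpr {E : Type u} [Ring E] (h : ℕ → E) : ℕ → E
  | 0 => 1
  | (m + 1) => h m * hpr h m

/-- (RNG).  `δ_l X = D_l X - ε(X) D_l`; `δ_l (X Y) = δ_l(X) Y + ε(X) δ_l(Y)`, `δ_l (C b) = 0`, `δ_l (h_i) = C (c_i l)`,
so `δ_l (C b * Y) = C b * δ_l Y`, `δ_l (h_i Y) = C (c_i l) Y - h_i δ_l Y`.  `nst l 0 X = X`,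
`nst l (m+1) X = nst l m (δ_{l m} X)` (outermost `δ_{l 0}`).  Leibniz, by induction on `n` (`skip j k = k` if
`k < j`, `k + 1` otherwise): `nst l (n+1) (h_i Y) = (-1)^(n+1) h_i nst l (n+1) Y +
∑_{j ≤ n} (-1)^(n-j) C (c_i (l j)) * nst (l ∘ skip j) n Y`.  By induction on `m`, for all `l`:
`nst l m (hpr h m) = C (det (c_i (l j))_{i,j<m})` and `nst l (m+1) (hpr h m) = δ_{l 0} (nst (l ∘ succ) m (hpr h m)) = 0`
(the step is the Laplace expansion `Matrix.det_succ_row _ (Fin.last m)`). -/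
def G_RNG : Prop := ∀ (E : Type u) [Ring E] (B : Type v) [CommRing B] (C : B →+* E) (ε : E →+* E) (e : ℕ)
  (D : Fin e → E) (h : ℕ → E) (c : ℕ → Fin e → B), (∀ b, ε (C b) = C b) → (∀ i, ε (h i) = -h i) →
  (∀ l b, D l * C b = C b * D l) → (∀ i l, D l * h i + h i * D l = C (c i l)) →
  ∀ (m : ℕ) (l : ℕ → Fin e), hpr h m = 0 → C (Matrix.of fun i j : Fin m => c i (l j)).det = 0

/-- (TOT), from `G_RNG`.  `W = ∀ i, V i`, `E = AddMonoid.End W` (or `Module.End ℤ W`), `C b` multiplication by `b`,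
`(D_l w)_i = D_l w_{i+1}`, `(h_j w)_0 = 0`, `(h_j w)_{i+1} = h_j w_i`, `ε X = P X P` with `(P w)_i = (-1)^i w_i`
(`P² = 1`, so `ε` is a ring homomorphism).  `hpr h (p+1) = 0`, because `V i = 0` for `i > p`. -/
def G_TOT : Prop := G_RNG.{u, v} → ∀ (B : Type v) [CommRing B] (V : ℕ → Type u) [∀ i, AddCommGroup (V i)]
  [∀ i, Module B (V i)] (e : ℕ) (D : Fin e → ∀ i, V (i + 1) →ₗ[B] V i) (c : ℕ → Fin e → B)
  (h : ℕ → ∀ i, V i →+ V (i + 1)) (p : ℕ), (∀ i, p < i → Subsingleton (V i)) →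
  (∀ j l v, D l 0 (h j 0 v) = c j l • v) →
  (∀ j l i v, D l (i + 1) (h j (i + 1) v) + h j i (D l i v) = c j l • v) →
  ∀ (l : ℕ → Fin e) (i : ℕ) (v : V i), (Matrix.of fun i j : Fin (p + 1) => c i (l j)).det • v = 0

/-- (V0D).  `up 0 v = v`, `up (m+1) v = h m m (up m v) : V (m+1)`; `dn l 0 w = w`, `dn l (m+1) w = dn l m (D (l m) m w)`
(`B`-linear, so it preserves `q • ⊤`).  Leibniz modulo `q • ⊤`, for `u : V m` by induction on `m` for all `l`:
`dn l (m+1) (h_i u) ≡ ∑_{j ≤ m} (-1)^(m-j) c_i(l j) • dn (l ∘ skip j) m u`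
(`m = 0`: the first hypothesis; `m + 1`: `D (h u) ≡ c u - h (D u)`, induction for `D u : V m`).  So by induction
`dn l m (up m v) ≡ det (c_i (l j))_{i,j<m} • v` (Laplace, `Matrix.det_succ_row _ (Fin.last m)`).  Take `m = p + 1`. -/
def G_V0D : Prop := ∀ (B : Type v) [CommRing B] (q : Ideal B) (V : ℕ → Type u) [∀ i, AddCommGroup (V i)]
  [∀ i, Module B (V i)] (e : ℕ) (D : Fin e → ∀ i, V (i + 1) →ₗ[B] V i) (c : ℕ → Fin e → B)
  (h : ℕ → ∀ i, V i →+ V (i + 1)), (∀ j l v, D l 0 (h j 0 v) - c j l • v ∈ q • (⊤ : Submodule B (V 0))) →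
  (∀ j l i v, D l (i + 1) (h j (i + 1) v) + h j i (D l i v) - c j l • v ∈ q • (⊤ : Submodule B (V (i + 1)))) →
  ∀ p : ℕ, Subsingleton (V (p + 1)) → ∀ (l : ℕ → Fin e) (v : V 0),
    (Matrix.of fun i j : Fin (p + 1) => c i (l j)).det • v ∈ q • (⊤ : Submodule B (V 0))

/-- (NAK).  `Bd 0 = range d ⊔ mS ≠ ⊤` (Nakayama in `A^(r 0)`, `mS = m • ⊤`), so `V 0 ≠ 0` (`M.ker`, `M.surj`).
`algebraMap x • π z = π (x • z)` (`act.alg`, `G_BAS` (6)), which is `0` for `x ∈ m`: so `algebraMap x` is not a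
unit.  `V 0` is generated over `B` by the classes of the unit vectors, so it is finite, and `m_B • ⊤ = ⊤` would
give `V 0 = 0` (Nakayama). -/
def G_NAK : Prop := G_BAS.{u} → ∀ (A : Type u) [CommRing A] [IsLocalRing A] (B : Type v) [CommRing B]
  [IsLocalRing B] [Algebra A B] (F : FC A) (act : DAct A B F) (e : ℕ) (a : Fin e → A), MinGen a →
  ∀ M : Mdl act a, LinearMap.range (F.d 0) ≠ ⊤ →
  (∀ x ∈ maximalIdeal A, algebraMap A B x ∈ maximalIdeal B) ∧
    ∃ v : M.V 0, v ∉ maximalIdeal B • (⊤ : Submodule B (M.V 0))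

/-- (FRE), syzygies are free of rank `n`.  If `m = maximalIdeal R` is principal then `R` is a PID (noetherian local
domain, see `tfae_of_isNoetherianRing_of_isLocalRing_of_isDomain`) and submodules of free modules are free.
Otherwise `x ∉ m²` (else `m = (y)` by Nakayama), so `x` is irreducible, hence prime, and `R/x` is a noetherian
local domain with principal maximal ideal, a PID.  `Z = {c | ∑ c_k f_k = 0}` satisfies `x v ∈ Z → v ∈ Z`.  The image
of `Z` in `(R/x)^(n+1)` has a basis (PID, `Submodule.nonempty_basis_of_pid`); lift it to `z_1, …, z_r ∈ Z`.  They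
generate `Z`: `Z = span z + x Z` and Nakayama.  They are independent: if `∑ a_i z_i = 0` then `x ∣ a_i`, divide by
`x` and iterate; `⋂ x^k R = 0` (Krull, or unique factorisation).  `r = n`: rank of the kernel of a nonzero
functional (`Module.finrank`, rank-nullity over a domain, or pass to the fraction field). -/
def G_FRE : Prop := ∀ (R : Type w) [CommRing R] [IsDomain R] [UniqueFactorizationMonoid R] [IsNoetherianRing R]
  [IsLocalRing R] (x y : R), maximalIdeal R = Ideal.span {x, y} → ∀ (n : ℕ) (f : Fin (n + 1) → R), f ≠ 0 →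
  ∃ z : Fin n → Fin (n + 1) → R, LinearIndependent R z ∧
    ∀ c : Fin (n + 1) → R, ∑ k, c k * f k = 0 ↔ c ∈ Submodule.span R (Set.range z)

/-- (MIN), Hilbert-Burch.  `Δ_k = (-1)^k det (z_i with the coordinate k removed) ∈ MI n f`; for every `u`,
`∑_k u_k Δ_k = ± det [z | u]`.  (a) `f_i Δ_j = f_j Δ_i`: multiply the row vector `f` with the square matrix `[z | u]`:
`(0, …, 0, f·u)`; multiply with the adjugate: `f_i det [z | u] = ± (f·u) Δ_i`, take `u = e_j`.  (b) `Δ ≠ 0` (`z` is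
independent over the fraction field, complete it by some `u`).  (c) unique factorisation and the coprimality of
the `f_k`: if `f_i ≠ 0`, `f_i ∣ Δ_i f_j` for all `j` gives `f_i ∣ Δ_i` (write `f_i = d u`, `Δ_i = d v`, `u, v` coprime;
`u ∣ f_j` for all `j`, so `u` is a unit); if `f_i = 0` then `Δ_i = 0`.  So `Δ = s f` with one `s ≠ 0`.
(d) `s` is a unit: otherwise a prime `π ∣ s` divides all `Δ_k`, so `det [z | u] ≡ 0` for all `u` modulo `π`, the `z_i`
are dependent modulo `π` (over the fraction field of `R/π`): there are `a_i ∈ R`, not all divisible by `π`, with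
`∑ a_i z_i = π w`; `∑ w_k f_k = 0`, so `w = ∑ b_i z_i` and `a_i = π b_i`, contradiction.
So `f_k = s⁻¹ Δ_k`. -/
def G_MIN : Prop := ∀ (R : Type w) [CommRing R] [IsDomain R] [UniqueFactorizationMonoid R] (n : ℕ)
  (f : Fin (n + 1) → R) (z : Fin n → Fin (n + 1) → R), f ≠ 0 → LinearIndependent R z →
  (∀ c : Fin (n + 1) → R, ∑ k, c k * f k = 0 ↔ c ∈ Submodule.span R (Set.range z)) →
  (∀ π : R, Prime π → ∃ k, ¬ π ∣ f k) → ∀ k, f k ∈ MI n f

/-- (LAP), Laplace expansion along a row. -/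
def G_LAP : Prop := ∀ (R : Type w) [CommRing R] (e : ℕ) (f : Fin e → R) (s t : ℕ), s ≤ t → MI t f ≤ MI s f

/-- (EXP).  Expand the determinant along its first row, whose entries are in `I`. -/
def G_EXP : Prop := ∀ (R : Type w) [CommRing R] (e : ℕ) (f : Fin e → R) (t : ℕ) (I : Ideal R),
  (∀ c : Fin e → R, ∑ k, c k * f k = 0 → ∀ k, c k ∈ I) → MI (t + 1) f ≤ I * MI t f

/-- (HB).  Strong induction on `e`; `e ≤ 2`: `MI 0 f = ⊤`.  `e = n + 3`.  Case A: some syzygy `c` has a unit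
coordinate `c_k`.  `f' = f ∘ k.succAbove`.  `MI n f' ≤ MI (n+1) f`: given `c'^i`, `l'` take the syzygies
`Fin.insertNth k 0 (c'^i)` and as last one `c`, and the indices `k.succAbove (l' j)` and as last one `k`; the
determinant is `det' * c_k` (block triangular).  By induction `f_l ∈ m * MI (n+1) f` for `l ≠ k`, and `f_k` is a
linear combination of the `f_l`.  Case B: all coordinates of all syzygies are in `m`.  `f ≠ 0` (else `e_0` is a
syzygy).  `f = g f'` with `f'` coprime (unique factorisation: `g` a gcd); the syzygies of `f'` are those of `f`.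
No `f'_k` is a unit (else `f'_k e_l - f'_l e_k` is a syzygy with a unit coordinate).  `G_FRE`, `G_MIN` for `f'`:
`f'_k ∈ MI (n+2) f'`, and `G_EXP`: `MI (n+2) f' ≤ m * MI (n+1) f'`, `MI (n+1) f' = MI (n+1) f`. -/
def G_HB : Prop := G_FRE.{w} → G_MIN.{w} → G_EXP.{w} → ∀ (R : Type w) [CommRing R] [IsDomain R]
  [UniqueFactorizationMonoid R] [IsNoetherianRing R]
  [IsLocalRing R] (x y : R), maximalIdeal R = Ideal.span {x, y} → ∀ (e : ℕ) (f : Fin e → R),
  (∀ k, f k ∈ maximalIdeal R) → ∀ k, f k ∈ maximalIdeal R * MI (e - 2) f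

end Pool.Agent.Helper26.DA
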