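import Pool.Agent.Helper26.DA.Asm

/-! # Project DA: the theorems FIT and LEMA -/

set_option autoImplicit false

namespace Pool.Agent.Helper26.DA

open IsLocalRing

universe u v w

theorem exists_minor {k : Type u} [Field k] {b p : ℕ} (v : Fin (p + 1) → Fin b → k)
    (hv : LinearIndependent k v) :
    ∃ I : Fin (p + 1) → Fin b, (Matrix.of fun i l => v i (I l)).det ≠ 0 := by
  classical
  set M : Matrix (Fin (p + 1)) (Fin b) k := Matrix.of fun i j => v i j with hM
  have hrank : M.rank = p + 1 := by
    have h1 : LinearIndependent k M.row := hv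
    have h2 := h1.rank_matrix
    simpa using h2
  have hspan : Module.finrank k (Submodule.span k (Set.range M.col)) = p + 1 :=
    (Matrix.rank_eq_finrank_span_cols M).symm.trans hrank
  obtain ⟨f, hf1, hf2, hf3⟩ := Submodule.exists_fun_fin_finrank_span_eq k (Set.range M.col)
  choose I hI using hf1
  refine ⟨fun l => I (Fin.cast hspan.symm l), ?_⟩
  have h5 : LinearIndependent k (fun l : Fin (p + 1) => f (Fin.cast hspan.symm l)) :=
    hf3.comp _ (Fin.cast_injective _)
  have h6 : (Matrix.of fun i l => v i (I (Fin.cast hspan.symm l)) :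
      Matrix (Fin (p + 1)) (Fin (p + 1)) k).col = fun l => f (Fin.cast hspan.symm l) := by
    funext l
    rw [← hI (Fin.cast hspan.symm l)]
    rfl
  rw [← h6] at h5
  rw [Matrix.linearIndependent_cols_iff_isUnit, Matrix.isUnit_iff_isUnit_det] at h5
  exact h5.ne_zero

section

variable {A : Type u} [CommRing A] [IsLocalRing A] {B : Type v} [CommRing B] [Algebra A B] {F : FC A}

/-- `x` kills the homology of `F ⊗ k`: it maps cycles modulo `m` to boundaries modulo `m`. -/
def Kills (act : DAct A B F) (x : B) : Prop := ∀ i, ∀ z ∈ Zc F i, act.ρ x i z ∈ Bd F i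

theorem kills_iff (hB : G_BAS.{u}) {act : DAct A B F} {e : ℕ} {a : Fin e → A} (ha : MinGen a)
    (M : Mdl act a) (x : B) : Kills act x ↔ x ∈ M.J := by
  obtain ⟨-, -, -, h4, -, -, -⟩ := hB A F e a ha
  rw [mem_J]
  constructor
  · intro h i v
    obtain ⟨z, rfl⟩ := M.surj i v
    rw [M.smul i x z ⟨act.ρ x i z, h4 _ (act.ch x) i z z.2⟩ rfl, M.ker]
    exact h i z z.2
  · intro h i z hz
    have h1 := h i (M.π i ⟨z, hz⟩)
    rw [M.smul i x ⟨z, hz⟩ ⟨act.ρ x i z, h4 _ (act.ch x) i z hz⟩ rfl, M.ker] at h1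
    exact h1

theorem fit (hB : G_BAS.{u}) (hMD : G_MDL.{u, v}) (hN : G_NUL.{u}) (hH : G_HEX.{u, v}) (hR : G_RNG.{u, v})
    (hT : G_TOT.{u, v}) (act : DAct A B F) {e : ℕ} (a : Fin e → A) (ha : MinGen a) (p : ℕ)
    (hp : ∀ i, p < i → F.r i = 0) (c : Fin (p + 1) → Fin e → B)
    (hc : ∀ i, ∑ l, c i l * algebraMap A B (a l) = 0) (l : Fin (p + 1) → Fin e) :
    Kills act (Matrix.of fun i j => c i (l j)).det := by
  obtain ⟨M⟩ := hMD hB A B F act e a ha
  rw [kills_iff hB ha M]
  exact fit_model hB hN hH hR hT ha M p hp c hc l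

theorem lema (hMG : G_MG.{u}) (hB : G_BAS.{u}) (hMD : G_MDL.{u, v}) (hN : G_NUL.{u}) (hH : G_HEX.{u, v})
    (hV : G_V0D.{u, v}) (hNK : G_NAK.{u, v}) [IsNoetherianRing A] [IsLocalRing B] (act : DAct A B F) (p : ℕ)
    (hp : ∀ i, p < i → F.r i = 0) (hH0 : LinearMap.range (F.d 0) ≠ ⊤) (s : ℕ) (b : Fin s → A)
    (hb : ∀ i, b i ∈ maximalIdeal A)
    (hli : ∀ w : Fin s → A, ∑ i, b i * w i ∈ maximalIdeal A ^ 2 → ∀ i, w i ∈ maximalIdeal A)
    (hx : ∀ i, algebraMap A B (b i) ∈ maximalIdeal B * Ideal.span {x | Kills act x}) : s ≤ p := by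
  by_contra hcon
  rw [not_le] at hcon
  obtain ⟨e, he, a, ha⟩ : ∃ e, e = Module.finrank (ResidueField A) (CotangentSpace A) ∧
      ∃ a : Fin e → A, MinGen a := ⟨_, rfl, hMG A⟩
  obtain ⟨M⟩ := hMD hB A B F act e a ha
  obtain ⟨hloc, v, hv⟩ := hNK hB A B F act e a ha M hH0
  have hJ : Ideal.span {x | Kills act x} ≤ M.J := by
    rw [Ideal.span_le]
    intro x hx
    exact (kills_iff hB ha M x).1 hx
  have hps : p + 1 ≤ s := hcon
  set ι : Fin (p + 1) → Fin s := Fin.castLE hps with hι
  have hιi : Function.Injective ι := Fin.castLE_injective hps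
  have ht : ∀ i : Fin (p + 1), ∃ t : Fin e → A, ∑ l, t l * a l = b (ι i) := by
    intro i
    have h1 := hb (ι i)
    rw [← ha.1] at h1
    exact Ideal.mem_span_range_iff_exists_fun.1 h1
  choose t ht using ht
  have hind : LinearIndependent (ResidueField A) (fun (i : Fin (p + 1)) (l : Fin e) => residue A (t i l)) := by
    rw [Fintype.linearIndependent_iff]
    intro g hg
    choose w hw using fun i => residue_surjective (g i)
    have h1 : ∀ l, ∑ i, w i * t i l ∈ maximalIdeal A := by
      intro l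
      have h2 := congrFun hg l
      rw [← residue_eq_zero_iff, map_sum]
      simp only [Finset.sum_apply, Pi.smul_apply, smul_eq_mul, Pi.zero_apply] at h2
      rw [← h2]
      exact Finset.sum_congr rfl fun i _ => by rw [map_mul, hw]
    have h3 : ∑ i, b (ι i) * w i ∈ maximalIdeal A ^ 2 := by
      have h4 : ∑ i, b (ι i) * w i = ∑ l, (∑ i, w i * t i l) * a l := by
        simp only [Finset.sum_mul]
        rw [Finset.sum_comm]
        refine Finset.sum_congr rfl fun i _ => ?_
        rw [← ht i, Finset.sum_mul]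
        exact Finset.sum_congr rfl fun l _ => by ring
      rw [h4, pow_two]
      refine Ideal.sum_mem _ fun l _ => Ideal.mul_mem_mul (h1 l) ?_
      rw [← ha.1]
      exact Ideal.subset_span ⟨l, rfl⟩
    have h5 : ∀ i : Fin (p + 1), w i ∈ maximalIdeal A := by
      intro i
      have h6 := hli (fun j => if h : ∃ i, ι i = j then w h.choose else 0) (by
        have h7 : ∑ j, b j * (if h : ∃ i, ι i = j then w h.choose else 0) = ∑ i, b (ι i) * w i := by
          rw [← Finset.sum_subset (Finset.subset_univ (Finset.univ.image ι))]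
          · rw [Finset.sum_image (fun x _ y _ h => hιi h)]
            refine Finset.sum_congr rfl fun i _ => ?_
            have h8 : ∃ i', ι i' = ι i := ⟨i, rfl⟩
            rw [dif_pos h8, hιi h8.choose_spec]
          · intro j _ hj
            rw [dif_neg, mul_zero]
            rintro ⟨i, rfl⟩
            exact hj (Finset.mem_image_of_mem _ (Finset.mem_univ _))
        rw [h7]; exact h3) (ι i)
      have h8 : ∃ i', ι i' = ι i := ⟨i, rfl⟩
      simp only [dif_pos h8, hιi h8.choose_spec] at h6
      exact h6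
    intro i
    rw [← hw i, residue_eq_zero_iff]
    exact h5 i
  obtain ⟨l, hl⟩ := exists_minor _ hind
  have hdet : IsUnit (Matrix.of fun i j => t i (l j)).det := by
    by_contra hu
    apply hl
    have h1 : (Matrix.of fun i j => t i (l j)).det ∈ maximalIdeal A :=
      (mem_maximalIdeal _).2 hu
    rw [← residue_eq_zero_iff, RingHom.map_det] at h1
    exact h1
  have hfin := v0_model hB hN hH hV ha M p hp (maximalIdeal B)
    (fun i k => algebraMap A B (t i k)) (fun i => by
      have h1 : ∑ k, algebraMap A B (t i k) * algebraMap A B (a k) = algebraMap A B (b (ι i)) := by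
        rw [← ht i, map_sum]
        exact Finset.sum_congr rfl fun k _ => (map_mul _ _ _).symm
      rw [h1]
      exact Ideal.mul_mono_right hJ (hx (ι i))) l v
  have h2 : (Matrix.of fun i j => (fun (i : Fin (p + 1)) (k : Fin e) => algebraMap A B (t i k)) i (l j)).det
      = algebraMap A B (Matrix.of fun i j => t i (l j)).det := by
    rw [RingHom.map_det]
    rfl
  rw [h2] at hfin
  have h3 := (hdet.map (algebraMap A B))
  obtain ⟨r, hr⟩ := h3.exists_left_inv
  have h4 := Submodule.smul_mem (maximalIdeal B • (⊤ : Submodule B (M.V 0))) r hfin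
  rw [smul_smul, hr, one_smul] at h4
  exact hv h4

end

end Pool.Agent.Helper26.DA
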